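import Pool.Agent.H592R7.AvgSat

/-!
Satisfiability of CNF formulas with `n` variables is exponentially hard on average for circuits of
small depth with `2 ^ ((1 - ε) n)` gates.

The main statement `H592R3.MbU.avg_sat` (starting library, folder `H592R7`) gives two distributions
on formulas, one supported on satisfiable formulas and one on formulas that are almost surely
unsatisfiable, which no such circuit distinguishes. Here it is complemented by the bound for the
probability of a right answer on the mixture of the two.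
-/

set_option autoImplicit false

open SmallDepth DomAC0 Finset

namespace Pool.Agent.Results.MP_0e79d0_lc.AverageCase

theorem decide_le {U : Type} [Fintype U] (ν₀ ν₁ : U → ℝ) (sat : U → Prop)
    (K : U → Bool) [∀ u, Decidable (sat u)] [∀ u, Decidable (K u = true)]
    [∀ u, Decidable (K u = true ↔ sat u)] (h00 : ∀ u, 0 ≤ ν₀ u) (h01 : ∑ u, ν₀ u = 1)
    (hs : ∀ u, ν₁ u ≠ 0 → sat u) (δ η : ℝ)
    (hη : (∑ u, ν₀ u * (if sat u then (1 : ℝ) else 0)) ≤ η)
    (hδ : |(∑ u, ν₀ u * (if K u = true then (1 : ℝ) else 0)) -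
          ∑ u, ν₁ u * (if K u = true then 1 else 0)| ≤ δ) :
    ∑ u, (ν₀ u + ν₁ u) / 2 * (if (K u = true ↔ sat u) then (1 : ℝ) else 0) ≤
      1 / 2 + (δ + η) / 2 := by
  have e0 : ∑ u, ν₀ u * (if (K u = true ↔ sat u) then (1 : ℝ) else 0) ≤
      (1 - ∑ u, ν₀ u * (if K u = true then (1 : ℝ) else 0)) + η := by
    have e00 : (1 - ∑ u, ν₀ u * (if K u = true then (1 : ℝ) else 0)) =
        ∑ u, (ν₀ u - ν₀ u * (if K u = true then (1 : ℝ) else 0)) := by
      rw [Finset.sum_sub_distrib, h01]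
    rw [e00]
    refine le_trans ?_ (add_le_add_right hη _)
    rw [← Finset.sum_add_distrib]
    apply Finset.sum_le_sum
    intro u _
    have := h00 u
    by_cases h1 : K u = true <;> by_cases h2 : sat u <;> simp [h1, h2, this]
  have e1 : ∑ u, ν₁ u * (if (K u = true ↔ sat u) then (1 : ℝ) else 0) =
      ∑ u, ν₁ u * (if K u = true then (1 : ℝ) else 0) := by
    apply Finset.sum_congr rfl
    intro u _
    by_cases h0 : ν₁ u = 0
    · rw [h0]; ring
    · have h2 := hs u h0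
      by_cases h1 : K u = true <;> simp [h1, h2]
  have e2 : ∑ u, (ν₀ u + ν₁ u) / 2 * (if (K u = true ↔ sat u) then (1 : ℝ) else 0) =
      (∑ u, ν₀ u * (if (K u = true ↔ sat u) then (1 : ℝ) else 0) +
        ∑ u, ν₁ u * (if (K u = true ↔ sat u) then (1 : ℝ) else 0)) / 2 := by
    rw [← Finset.sum_add_distrib, Finset.sum_div]
    apply Finset.sum_congr rfl
    intro u _
    ring
  rw [e2, e1]
  have h3 := (abs_le.1 hδ).1
  linarith

open Classical in
/-- For every `ε > 0` there is `C > 0` such that for `n ≥ 2` variables, depth `d ≥ 1`, clause width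
`C d log n ≤ w ≤ n` and `M ≥ n 2^w` clauses there are two probability distributions `ν₀`, `ν₁` on
formulas of width at most `w` such that `ν₁` is supported on satisfiable formulas, a formula of
`ν₀` is satisfiable with probability at most `2 ^ (-(1 - ε) n / 2)`, and every circuit of depth at
most `d` with at most `2 ^ ((1 - ε) n)` gates has advantage at most `2 ^ (-w / C)` in telling `ν₀`
from `ν₁`, and decides satisfiability on the mixture `(ν₀ + ν₁) / 2` with probability at most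
`1 / 2 + 2 ^ (-w / C)`. -/
theorem result (ε : ℝ) (hε : 0 < ε) : ∃ C : ℝ, 0 < C ∧
    ∀ n d w M : ℕ, 2 ≤ n → 1 ≤ d → C * (d * Real.log n) ≤ w → w ≤ n → n * 2 ^ w ≤ M →
    ∃ ν₀ ν₁ : ((Fin M × Fin n × Bool) → Bool) → ℝ,
      ((∀ u, 0 ≤ ν₀ u) ∧ ∑ u, ν₀ u = 1) ∧ ((∀ u, 0 ≤ ν₁ u) ∧ ∑ u, ν₁ u = 1) ∧
      (∀ u, ν₀ u ≠ 0 → WidthLe u w) ∧ (∀ u, ν₁ u ≠ 0 → WidthLe u w ∧ ∃ α, Models u α) ∧
      (∑ u, ν₀ u * (if ∃ α, Models u α then 1 else 0)) ≤ (2 : ℝ) ^ (-((1 - ε) * n / 2)) ∧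
      ∀ K : Circuit (Fin M × Fin n × Bool), K.depth ≤ d → (K.size : ℝ) ≤ 2 ^ ((1 - ε) * n) →
        |(∑ u, ν₀ u * (if K.eval u = true then 1 else 0)) -
          ∑ u, ν₁ u * (if K.eval u = true then 1 else 0)| ≤ (2 : ℝ) ^ (-((w : ℝ) / C)) ∧
        ∑ u, (ν₀ u + ν₁ u) / 2 * (if (K.eval u = true ↔ ∃ α, Models u α) then 1 else 0) ≤
          1 / 2 + (2 : ℝ) ^ (-((w : ℝ) / C)) := by
  obtain ⟨C, hC, H⟩ := H592R3.MbU.avg_sat (min ε (1 / 2)) (lt_min hε (by norm_num))
  have hC' : 0 < max C 4 := lt_max_of_lt_left hC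
  refine ⟨max C 4, hC', ?_⟩
  intro n d w M hn hd hw hwn hM
  have hnR : (2 : ℝ) ≤ n := by exact_mod_cast hn
  have hlog : 0 ≤ (d : ℝ) * Real.log n := by
    have := Real.log_nonneg (by linarith : (1 : ℝ) ≤ n)
    positivity
  have hm1 : min ε (1 / 2) ≤ ε := min_le_left _ _
  have hm2 : min ε (1 / 2) ≤ 1 / 2 := min_le_right _ _
  obtain ⟨ν₀, ν₁, h0, h1, hw0, hw1, hsat, hK⟩ := H n d w M hn hd
    (le_trans (mul_le_mul_of_nonneg_right (le_max_left _ _) hlog) hw) hwn hM
  have hexp : (2 : ℝ) ^ (-((w : ℝ) / C)) ≤ (2 : ℝ) ^ (-((w : ℝ) / max C 4)) := by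
    apply Real.rpow_le_rpow_of_exponent_le (by norm_num)
    rw [neg_le_neg_iff]
    exact div_le_div_of_nonneg_left (Nat.cast_nonneg w) hC (le_max_left _ _)
  have hexp2 : (2 : ℝ) ^ (-((1 - min ε (1 / 2)) * n / 2)) ≤ (2 : ℝ) ^ (-((w : ℝ) / max C 4)) := by
    apply Real.rpow_le_rpow_of_exponent_le (by norm_num)
    rw [neg_le_neg_iff]
    have h4 : (4 : ℝ) ≤ max C 4 := le_max_right _ _
    have hwR : (w : ℝ) ≤ n := by exact_mod_cast hwn
    calc (w : ℝ) / max C 4 ≤ (w : ℝ) / 4 := div_le_div_of_nonneg_left (Nat.cast_nonneg w)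
          (by norm_num) h4
      _ ≤ n / 4 := by linarith
      _ ≤ (1 - min ε (1 / 2)) * n / 2 := by nlinarith
  refine ⟨ν₀, ν₁, h0, h1, hw0, hw1, ?_, ?_⟩
  · refine hsat.trans ?_
    apply Real.rpow_le_rpow_of_exponent_le (by norm_num)
    nlinarith
  · intro K hKd hKs
    have hKs' : (K.size : ℝ) ≤ 2 ^ ((1 - min ε (1 / 2)) * n) := by
      refine hKs.trans ?_
      apply Real.rpow_le_rpow_of_exponent_le (by norm_num)
      nlinarith
    have hadv := hK K hKd hKs'
    refine ⟨hadv.trans hexp, ?_⟩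
    refine (decide_le ν₀ ν₁ (fun u => ∃ α, Models u α) K.eval h0.1 h0.2
      (fun u hu => (hw1 u hu).2) _ _ hsat hadv).trans ?_
    linarith [hexp, hexp2]

end Pool.Agent.Results.MP_0e79d0_lc.AverageCase
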