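import Pool.Agent.H530R3.Eth.SMain

/-!
# How dense must a random oracle be for the randomized strong exponential time hypothesis?

Choose a random oracle `A`: each string `x` is put into `A` independently of the others with
probability `p |x|`, where the densities `p n` are arbitrary numbers in `[0, 1]`, and let
`lam p n = 2 ^ n * min (p n) (1 - p n)`.

* If the sum of the numbers `lam p n` diverges, then almost surely the randomized strong exponential
  time hypothesis holds relative to `A`: there is a search problem with a verifier in `FP^A` which
  cannot be decided by a randomized algorithm in time `2 ^ ((1 - ε) n)` times a power of the length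
  of the instance. Even uniform Arthur–Merlin algorithms for the unsolvable instances do not exist
  for this time.
* If the sum converges then almost surely `A` differs from the set of the strings with
  `p |x| > 1 / 2` at finitely many strings only, and the hypothesis holds relative to `A` if and only
  if it holds relative to this set.
* So this hypothesis (for search problems) fails in the unrelativized world if and only if for all
  densities which are at most `1 / 2` it fails almost surely relative to `A` exactly if the sum
  converges, and if and only if there is a sequence of such densities for which it fails relative to
  `A` with positive probability.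

Proof of the first part. For every `n` one chooses a number `m` of solution bits, at least a quarter
of `n`, and one considers the blocks of `j` strings of length `n` which begin with a given string of
length `m`; the question is whether the oracle has the less likely bit at all strings of one of the
blocks. The parameters are such that the expected number of such blocks is at most `1 / 4` and at
least `min 1 (lam p n) / 16`. If an Arthur–Merlin algorithm recognises the negative instances within
`T` rounds, then filling a block changes the verdict for at most `3 T` of the `2 ^ m` blocks.
-/

set_option autoImplicit false

namespace Pool.Agent.Results.MP_0e79d0_lc.OracleDensity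

open MeasureTheory
open Pool.Agent.H530R3.Thr (biasedOracle lam major ae_finite)
open Pool.Agent.H274R3.ETH (RSETHFails)
open Pool.Agent.H530R3.Eth

theorem result :
    (∀ p : ℕ → unitInterval, ¬ Summable (lam p) →
      ∀ᵐ A ∂(biasedOracle p), ¬ RSETHFails A ∧ ¬ UAMSFails A) ∧
    (∀ p : ℕ → unitInterval, Summable (lam p) → ∀ᵐ A ∂(biasedOracle p),
      {x : List Bool | A x ≠ major p x}.Finite ∧ (RSETHFails A ↔ RSETHFails (major p))) ∧
    (RSETHFails (fun _ => false) ↔ ∀ p : ℕ → unitInterval, (∀ n, (p n : ℝ) ≤ 1 / 2) →
      ((∀ᵐ A ∂(biasedOracle p), RSETHFails A) ↔ Summable (lam p))) ∧
    (RSETHFails (fun _ => false) ↔ ∃ p : ℕ → unitInterval, (∀ n, (p n : ℝ) ≤ 1 / 2) ∧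
      0 < biasedOracle p {A | RSETHFails A}) :=
  ⟨fun p h => (divS p h).and (divergentS p h),
    fun p h => (ae_finite p h).mono fun _ hA => ⟨hA, rsethFails_iff hA⟩,
    (equivs RSETHFails divS fun _ _ => rsethFails_iff).1,
    (equivs RSETHFails divS fun _ _ => rsethFails_iff).2⟩

end Pool.Agent.Results.MP_0e79d0_lc.OracleDensity
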