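import Pool.Agent.H274R3.RETH.Final

set_option autoImplicit false

/-!
# For how many oracles can exhaustive search be improved with randomized algorithms?

Relative to an oracle `A` the role of `k`-SAT is played by the search problems given by a verifier
`V` in `FP^A`; the instances `y` with `n` variables (solutions of length `n`) may have any length.
The set of oracles relative to which all these problems are solved by randomized algorithms with
bounded error in time `2 ^ ((1 - δ) n)` times a polynomial in the length of the instance is
measured by gauges `f` (the weight of an initial segment `σ` is `2 ^ (f |σ| - |σ|)`; for `f = 0` one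
gets the Lebesgue null sets). The exact threshold is `f N ≤ 2 ^ ((log N) ^ ε)`, infinitely often, for
every `ε`; it is the same for nonuniform Arthur–Merlin algorithms for the instances without
solution, and for the much smaller set of oracles with `PSPACE^A` reducible to `A`. For a certain
gauge the exceptional set is a null set, but the set of the oracles for which the instances of
length polynomial in `n` are solved by deterministic algorithms in time `2 ^ (o(n))` is not. So
relative to some oracle the randomized SETH holds (even for nonuniform Arthur–Merlin algorithms)
although the (deterministic) ETH fails.

Idea. If `f` is small at `N`, one takes `n` about `log log N` and instances of length `m`, where `m`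
is a small power of `2 ^ n`. The solutions of the instance `y` are the strings `w` for which `n`
strings extending `y w` are all in the oracle. For each oracle `12 (m + 1)` random strings are good
for all instances of length `m` (Adleman's argument), and the event that with certain random
strings the majority of the runs is right for all these instances has probability less
than `exp (- 2 ^ (m - n - 5))`, which makes up for the factor `2 ^ (f N)` and for the number of the
choices of the random strings.
-/

namespace Pool.Agent.Results.MP_0e79d0_lc.RandomizedOracleSize

open Pool.Agent.NPC Pool.Agent.H620R2.Gauge Pool.Agent.H274R3.ETH Filter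

/-- The exact gauge threshold for the set of oracles relative to which exhaustive search can be
improved by randomized algorithms, and the comparison with the exponential time hypothesis. -/
theorem result :
    (∀ f : ℕ → ℝ,
      (Null f {A : Oracle | RSETHFails A} ↔
        ∀ ε : ℝ, 0 < ε → ∃ᶠ N : ℕ in atTop, f N ≤ 2 ^ (Real.logb 2 N) ^ ε) ∧
      (∀ O : Set Oracle, {A : Oracle | ∀ L, IsPSPACE A L → Reduces L {x | A x = true}} ⊆ O →
        O ⊆ {A : Oracle | AMSFails A} →
        (Null f O ↔
          ∀ ε : ℝ, 0 < ε → ∃ᶠ N : ℕ in atTop, f N ≤ 2 ^ (Real.logb 2 N) ^ ε)) ∧
      {A : Oracle | ∀ L, IsPSPACE A L → Reduces L {x | A x = true}} ⊆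
        {A : Oracle | RSETHFails A} ∧
      {A : Oracle | RSETHFails A} ⊆ {A : Oracle | AMSFails A} ∧
      {A : Oracle | NUSETHFails A} ⊆ {A : Oracle | AMSFails A}) ∧
    (∃ f : ℕ → ℝ, Null f {A : Oracle | AMSFails A} ∧
      ¬ Null f {A : Oracle | StrongETHFails A}) ∧
    ∃ A : Oracle, StrongETHFails A ∧ ¬ AMSFails A :=
  ⟨mainRS, ⟨fS, sepR⟩, exists_oracleR⟩

end Pool.Agent.Results.MP_0e79d0_lc.RandomizedOracleSize
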